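import Mathlib
import Pool.Agent.W484.CK.PairingMain

/-!
# Perfectness of the motivic cup product pairing for products with almost all abelian varieties

Let `g i` (`i` in a finite set `I`) be positive integers, `r` an integer smaller than all the `g i`
and `E` a number field.  For a prime power `q` let `S i` be the set of the characteristic
polynomials of Frobenius of the ordinary abelian varieties of dimension `g i` over the field with `q`
elements, or of all abelian varieties of dimension `g i`, or any set in between.  By Weil, Honda and
Tate its elements correspond to the isogeny classes, the first set contains `ordinaryWeilPolys q
(g i)`, and the second one is contained in `weilPolys q (g i)`.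

For all families `f i` in `S i` with the exception of a proportion `O (q ^ (-1 / 6) log q)`, the
constant depending only on `g` and `E`, the following holds for all `s > 0`, `Q = q ^ s`, all
abelian varieties `A` over the field with `Q` elements which are isogenous to products of powers of
abelian varieties coming from the field with `q` elements, with characteristic polynomials `f i`,
and **all** smooth projective varieties `Z` over the field with `Q` elements such that

* the eigenvalues of Frobenius on the cohomology of `Z` and their conjugates generate a group of rank
  at most `r` modulo the group of the numbers with a power in `E`;
* homologically trivial self-correspondences of degree zero of `A × Z` are nilpotent, for instance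
  the motive of `Z` is finite-dimensional in the sense of Kimura and O'Sullivan. This is known for
  all varieties dominated by products of curves, and for their products with `A`.

There are finitely many products `D j` of `deg j` divisors on `A`, and a dual family of linear
combinations `D' j` of products of `dim A - deg j` divisors, such that **all** pairings `⟨ , ⟩` of
two theories `T`, `T'` with rational coefficients on which the correspondences act in such a way that
transposed correspondences are adjoint, and for which the Frobenius endomorphism acts on
`T^i (A × Z)` and `T'^i (A × Z)` as multiplication by `Q ^ i`, have the following property: there
are Kunneth formulas `T^i (A × Z) = ⨁ D j × T^(i - deg j) (Z)` and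
`T'^i (A × Z) = ⨁ D' j × T'^(i - dim A + deg j) (Z)`, and the pairing of `A × Z` is the orthogonal
sum of the pairings of `Z`: `⟨∑ D j × z j, ∑ D' j × w j⟩ = ∑ ⟨z j, w j⟩`. In particular the pairing
of `T^n` and `T'^(dim - n)` of `A × Z` is perfect if and only if this holds for `Z` and all
the degrees `n - deg j`.

For a fixed integer `m` we can take `T^n (X) = H^(2 n - m) (X, ℚ(n))` and
`T'^n (X) = H^(2 n + m) (X, ℚ(n))` (motivic cohomology, that is higher Chow groups), and the
degree of the cup product as pairing. We find: **the motivic cup product pairings of `A × Z` are
perfect (in all degrees) if and only if those of `Z` are**, for every `m` separately. For `m = 0`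
this is the intersection pairing of the Chow groups with rational coefficients; for `m ≠ 0` one of
the two groups is zero, so that perfectness is the vanishing of the other one, the conjecture of
Parshin. The Frobenius endomorphism acts as multiplication by `Q ^ n` on the motivic
cohomology groups with rational coefficients of weight `n`.

For `r = 0` the assumption on the eigenvalues is: the eigenvalues of Frobenius and their conjugates
have powers in `E`.  If for instance `Z` is any given variety over the field with `q'` elements, one
can take for `E` the field generated by the eigenvalues of Frobenius and their conjugates, and
applies the theorem to the powers `q` of `q'`.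

The framework (`TheoryData`, `IsChow`, `IsWeil`) is the one of helper492: the Chow groups `C` with
their pull-backs, push-forwards and products, and a Weil cohomology theory `H` with coefficients in
an algebraically closed field `K`, on a class `𝒱` of smooth proper varieties over `k`.

The idea of the proof: by a sieve (helper521), which only uses the primes that split completely in
the Galois closure of `E` - these have positive density by the theorem of Chebotarev, formalized by
helper401 - almost all families are such that each pair `α`, `q / α` of roots can be exchanged by a
Galois automorphism which fixes all the other roots of all the `f i` and also all elements of `E`.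
It follows that the generalized eigenvectors of Frobenius in the cohomology of `A × Z` for the
eigenvalues `Q ^ i` are sums of products of classes of products of divisors on `A` and of classes on
`Z`. Let `p` be the projector given by the `D j` and dual classes, and `P` a polynomial killing all
the other eigenvalues and with `P (Q ^ i) = 1`. The correspondence `(1 - p) P (F)` is homologically
trivial, hence nilpotent; as it acts on `T^i (A × Z)` as the idempotent `1 - p`, this idempotent is
zero. The same holds for `T'` and the transposed projector. (The idea to play the eigenvalues of Frobenius off against nilpotence is due to Soule,
Geisser and Kahn.)
-/

set_option autoImplicit false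

namespace Pool.Agent.Results.MP_a9d3bd_ag.AlmostAllAbelianFactors

open Polynomial Pool.Agent.W521.Descent Pool.Agent.W521.Count Pool.Agent.W484.TB
  Pool.Agent.W484.CK

/-- `weilPolys q g` is the set of monic integral polynomials of degree `2 g` with constant term
`q ^ g` and all roots of absolute value `√q`; `ordinaryWeilPolys q g` is the subset of those
whose coefficient of index `g` is prime to `q`. -/
theorem result {I : Type} [Fintype I] (g : I → ℕ) (r : ℕ) (hr : ∀ i, r < g i)
    (E : IntermediateField ℚ ℂ) [FiniteDimensional ℚ E] :
    ∃ C : ℝ, ∀ q : ℕ, IsPrimePow q → ∀ S : I → Set ℤ[X],
      (∀ i, ordinaryWeilPolys q (g i) ⊆ S i ∧ S i ⊆ weilPolys q (g i)) →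
      (∀ i, (S i).Finite ∧ (S i).Nonempty) ∧
      ({f : I → ℤ[X] | (∀ i, f i ∈ S i) ∧ ¬ PairingForRankOver E q r f}.ncard : ℝ) ≤
        C * (Real.log q * (q : ℝ) ^ (-(1 / 6) : ℝ)) * ∏ i, ((S i).ncard : ℝ) :=
  count_of_goodU (splitPrimes E) (dense_splitPrimes E) g
    (fun i => (Nat.zero_le r).trans_lt (hr i)) (fun q f => PairingForRankOver E q r f)
    fun _ hq x hx => pairingForRankOver_of_good g E hq.one_lt r hr x hx

end Pool.Agent.Results.MP_a9d3bd_ag.AlmostAllAbelianFactors
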